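import Pool.Agent.H77.GR.Stm
import Pool.Agent.H77.TF.Pri

/-!
Project GR (helper77), module EX1: the dimension of the space of the logarithmic fields of degree `m`
after the addition of a plane.
-/

set_option autoImplicit false

open MvPolynomial Module Pool.Agent.H77.TF Pool.Agent.H77.GR

namespace Pool.Agent.H53.GR

theorem dim2 (K : Type) [Field K] (e : ℕ) :
    finrank K (homogeneousSubmodule (Fin 2) K e) = e + 1 := by
  rw [homogeneousSubmodule_eq_finsupp_supported]
  let es : ({d : Fin 2 →₀ ℕ | d.degree = e} : Set (Fin 2 →₀ ℕ)) ≃ Sym (Fin 2) e :=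
    (Equiv.subtypeEquivRight (fun d => by
      show d.degree = e ↔ d.sum (fun _ => id) = e
      exact Iff.rfl)).trans (Sym.equivNatSum (Fin 2) e).symm
  have : Fintype ({d : Fin 2 →₀ ℕ | d.degree = e} : Set (Fin 2 →₀ ℕ)) := Fintype.ofEquiv _ es.symm
  rw [(AddMonoidAlgebra.supportedEquivFinsupp (R := K) (S := K)
    ({d : Fin 2 →₀ ℕ | d.degree = e} : Set (Fin 2 →₀ ℕ))).finrank_eq, Module.finrank_finsupp_self,
    Fintype.card_congr es, Sym.card_sym_eq_choose, Fintype.card_fin]
  have h1 : 2 + e - 1 = e + 1 := by omega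
  rw [h1, Nat.choose_succ_self_right]

theorem comp_mul {K : Type} [Field K] {σ : Type} (P g : MvPolynomial σ K) (d k : ℕ)
    (hP : P.IsHomogeneous d) :
    homogeneousComponent (d + k) (P * g) = P * homogeneousComponent k g := by
  classical
  have h1 : ∀ i, homogeneousComponent (d + k) (P * homogeneousComponent i g) =
      if i = k then P * homogeneousComponent i g else 0 := by
    intro i
    have h2 : P * homogeneousComponent i g ∈ homogeneousSubmodule σ K (d + i) :=
      hP.mul (homogeneousComponent_isHomogeneous i g)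
    rw [homogeneousComponent_of_mem h2]
    by_cases h : i = k
    · rw [if_pos (by rw [h]), if_pos h]
    · rw [if_neg (by omega), if_neg h]
  have h3 : homogeneousComponent (d + k) (P * g) =
      ∑ i ∈ Finset.range (g.totalDegree + 1), homogeneousComponent (d + k)
        (P * homogeneousComponent i g) := by
    rw [← map_sum, ← Finset.mul_sum, sum_homogeneousComponent]
  rw [h3, Finset.sum_congr rfl (fun i _ => h1 i), Finset.sum_ite_eq']
  by_cases h : k ∈ Finset.range (g.totalDegree + 1)
  · rw [if_pos h]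
  · rw [if_neg h]
    rw [Finset.mem_range] at h
    rw [homogeneousComponent_eq_zero _ _ (by omega), mul_zero]

theorem lin_hom {K : Type} [Field K] {l : ℕ} (a : Fin l → K) : (lin a).IsHomogeneous 1 := by
  unfold lin
  refine IsHomogeneous.sum _ _ _ fun i _ => ?_
  simpa using (isHomogeneous_C (Fin l) (a i)).mul (isHomogeneous_X K i)

theorem evl_hom {K : Type} [Field K] {l m : ℕ} (a : Fin l → K) {v : Fin l → MvPolynomial (Fin l) K}
    (hv : ∀ j, (v j).IsHomogeneous m) : (evl a v).IsHomogeneous m := by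
  unfold evl
  refine IsHomogeneous.sum _ _ _ fun i _ => ?_
  simpa using (isHomogeneous_C (Fin l) (a i)).mul (hv i)

theorem rho_hom {K : Type} [Field K] {m : ℕ} {a : Fin (m + 1) → K} {j₀ : Fin (m + 1)}
    (ha : a j₀ ≠ 0) {ρ : MvPolynomial (Fin (m + 1)) K →ₐ[K] MvPolynomial (Fin m) K}
    (h1 : ∀ i, ρ (X (j₀.succAbove i)) = X i) (h2 : ρ (lin a) = 0) {f : MvPolynomial (Fin (m + 1)) K}
    {d : ℕ} (hf : f.IsHomogeneous d) : (ρ f).IsHomogeneous d := by
  have h3 : ∀ i, (ρ (X i)).IsHomogeneous 1 := by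
    intro i
    rcases Fin.eq_self_or_eq_succAbove j₀ i with h | ⟨k, rfl⟩
    · rw [h]
      unfold lin at h2
      rw [Fin.sum_univ_succAbove _ j₀, map_add, map_mul, map_sum] at h2
      have h4 : ∀ i, ρ (C (a (j₀.succAbove i)) * X (j₀.succAbove i)) =
          C (a (j₀.succAbove i)) * X i := fun i => by
        rw [map_mul, h1, show ρ (C (a (j₀.succAbove i))) = C (a (j₀.succAbove i)) from ρ.commutes _]
      rw [Finset.sum_congr rfl (fun i _ => h4 i), show ρ (C (a j₀)) = C (a j₀) from ρ.commutes _] at h2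
      have h5 : ρ (X j₀) = C (a j₀)⁻¹ * -(∑ i, C (a (j₀.succAbove i)) * X i) := by
        have h6 : (C (a j₀)⁻¹ : MvPolynomial (Fin m) K) * C (a j₀) = 1 := by
          rw [← C_mul, inv_mul_cancel₀ ha, C_1]
        calc ρ (X j₀) = (C (a j₀)⁻¹ * C (a j₀)) * ρ (X j₀) := by rw [h6, one_mul]
          _ = C (a j₀)⁻¹ * (C (a j₀) * ρ (X j₀)) := by ring
          _ = _ := by rw [eq_neg_of_add_eq_zero_left h2]
      rw [h5]
      have h7 : (∑ i, C (a (j₀.succAbove i)) * X i : MvPolynomial (Fin m) K).IsHomogeneous 1 := by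
        refine IsHomogeneous.sum _ _ _ fun i _ => ?_
        simpa using (isHomogeneous_C (Fin m) (a (j₀.succAbove i))).mul (isHomogeneous_X K i)
      simpa using (isHomogeneous_C (Fin m) (a j₀)⁻¹).mul h7.neg
    · rw [h1]
      exact isHomogeneous_X K k
  have h4 : ρ f = aeval (fun i => ρ (X i)) f := by
    conv_lhs => rw [MvPolynomial.aeval_unique ρ]
    rfl
  rw [h4]
  have := hf.aeval (fun i => ρ (X i)) h3
  rwa [one_mul] at this

/-- the value at the form `a`, on the plane `a` -/
noncomputable def T {K : Type} [Field K] {n : ℕ} (A : Fin n → Fin 3 → K) (a : Fin 3 → K) (m : ℕ)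
    (ρ : MvPolynomial (Fin 3) K →ₐ[K] MvPolynomial (Fin 2) K) :
    LRm A m →ₗ[K] MvPolynomial (Fin 2) K where
  toFun v := ρ (evl a v.1)
  map_add' v w := by
    rw [← map_add]
    congr 1
    simp [evl, mul_add, Finset.sum_add_distrib]
  map_smul' c v := by
    rw [RingHom.id_apply, ← map_smul]
    congr 1
    simp [evl, Finset.smul_sum]

theorem ex1 (hEXB : S_EXB) (hEXL : S_EXL) : S_EX1 := by
  classical
  intro K _ n A a hS ha hA m hnm
  obtain ⟨j₀, hj₀⟩ : ∃ j₀, a j₀ ≠ 0 := by
    by_contra h
    push Not at h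
    exact ha (funext h)
  obtain ⟨ρ, hρX, hρa, hρr, hρ0⟩ := Pool.Agent.H77.TF.sub K 2 a j₀ hj₀
  set s : Fin n → Submodule K (Fin 3 → K) := fun i => Submodule.span K {a, A i} with hs
  have mem_s : ∀ i, A i ∈ s i := fun i => Submodule.subset_span (by simp)
  have mem_a : ∀ i, a ∈ s i := fun i => Submodule.subset_span (by simp)
  have hss : ∀ i j, A i ∈ s j → s i = s j := by
    intro i j hij
    obtain ⟨x, y, hxy⟩ := Submodule.mem_span_pair.1 hij
    have hy : y ≠ 0 := by
      rintro rfl
      rw [zero_smul, add_zero] at hxy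
      exact hA i x hxy.symm
    refine le_antisymm (Submodule.span_le.2 ?_) (Submodule.span_le.2 ?_)
    · rintro z (rfl | rfl)
      · exact mem_a j
      · exact hij
    · rintro z (rfl | rfl)
      · exact mem_a i
      · have h1 : A j = y⁻¹ • (A i - x • a) := by
          rw [← hxy, add_sub_cancel_left, smul_smul, inv_mul_cancel₀ hy, one_smul]
        rw [SetLike.mem_coe, h1]
        exact Submodule.smul_mem _ _ (Submodule.sub_mem _ (mem_s i)
          (Submodule.smul_mem _ _ (mem_a i)))
  have : Finite (Set.range s) := Set.finite_range s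
  have : Fintype (Set.range s) := Fintype.ofFinite _
  set c : Finset (Fin n) := Finset.univ.image (Set.rangeSplitting s) with hc
  have hcc : c.card = Nat.card (Set.range s) := by
    rw [hc, Finset.card_image_of_injective _ (Set.rangeSplitting_injective s), Finset.card_univ,
      Nat.card_eq_fintype_card]
  have hc1 : ∀ i, ∃ j ∈ c, A i ∈ Submodule.span K {a, A j} := by
    intro i
    refine ⟨Set.rangeSplitting s ⟨s i, i, rfl⟩, Finset.mem_image_of_mem _ (Finset.mem_univ _), ?_⟩
    have h1 : s (Set.rangeSplitting s ⟨s i, i, rfl⟩) = s i := Set.apply_rangeSplitting s _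
    show A i ∈ s (Set.rangeSplitting s ⟨s i, i, rfl⟩)
    rw [h1]
    exact mem_s i
  have hc2 : ∀ i ∈ c, ∀ j ∈ c, A i ∈ Submodule.span K {a, A j} → i = j := by
    intro i hi j hj hij
    obtain ⟨y, -, rfl⟩ := Finset.mem_image.1 hi
    obtain ⟨z, -, rfl⟩ := Finset.mem_image.1 hj
    have h1 := hss _ _ hij
    have h2 := Set.apply_rangeSplitting s y
    have h3 := Set.apply_rangeSplitting s z
    have h4 : y = z := Subtype.ext (h2.symm.trans (h1.trans h3))
    rw [h4]
  have hcn : c.card ≤ n := by
    have := Finset.card_le_univ c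
    rwa [Fintype.card_fin] at this
  have hcm : n ≤ m + c.card := by
    rcases Nat.eq_zero_or_pos n with h | h
    · omega
    · have : 0 < c.card := by
        obtain ⟨j, hj, -⟩ := hc1 ⟨0, h⟩
        exact Finset.card_pos.2 ⟨j, hj⟩
      omega
  obtain ⟨e, he⟩ : ∃ e, m + c.card = e + n := ⟨m + c.card - n, by omega⟩
  set P : MvPolynomial (Fin 2) K := ∏ i ∈ cᶜ, ρ (lin (A i)) with hP
  have hP0 : P ≠ 0 := by
    rw [hP, Finset.prod_ne_zero_iff]
    intro i _ h
    obtain ⟨t, ht⟩ := (Pool.Agent.H77.TF.pri K 3 a ha).2 (A i) (hρ0 _ h)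
    exact hA i t ht
  have hPh : P.IsHomogeneous cᶜ.card := by
    have h1 := IsHomogeneous.prod cᶜ (fun i => ρ (lin (A i))) (fun _ => 1)
      (fun i _ => rho_hom hj₀ hρX hρa (lin_hom (A i)))
    rwa [Finset.sum_const, smul_eq_mul, mul_one] at h1
  have hce : cᶜ.card + e = m := by
    rw [Finset.card_compl, Fintype.card_fin]
    omega
  -- finite dimension
  have : FiniteDimensional K (homogeneousSubmodule (Fin 3) K m) :=
    Module.Finite.iff_fg.2 (homogeneousSubmodule_fg (Fin 3) K m)
  let ι : LRm A m →ₗ[K] (Fin 3 → homogeneousSubmodule (Fin 3) K m) :=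
    { toFun := fun v j => ⟨v.1 j, v.2.2 j⟩
      map_add' := fun v w => rfl
      map_smul' := fun c v => rfl }
  have : FiniteDimensional K (LRm A m) := by
    refine Module.Finite.of_injective ι fun v w h => ?_
    refine Subtype.ext (funext fun j => ?_)
    exact congrArg Subtype.val (congrFun h j)
  have hrn := LinearMap.finrank_range_add_finrank_ker (T A a m ρ)
  -- the kernel
  have hker : finrank K (LinearMap.ker (T A a m ρ)) =
      finrank K (LRm (Fin.snoc (α := fun _ => Fin 3 → K) A a : Fin (n + 1) → Fin 3 → K) m) := by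
    rw [← Submodule.finrank_map_subtype_eq]
    have h1 : (LinearMap.ker (T A a m ρ)).map (LRm A m).subtype =
        LRm (Fin.snoc (α := fun _ => Fin 3 → K) A a : Fin (n + 1) → Fin 3 → K) m := by
      ext v
      rw [Submodule.mem_map]
      constructor
      · rintro ⟨w, hw, rfl⟩
        refine ⟨fun i => ?_, w.2.2⟩
        refine Fin.lastCases ?_ (fun i => ?_) i
        · rw [Fin.snoc_last]
          exact hρ0 _ hw
        · rw [Fin.snoc_castSucc]
          exact w.2.1 i
      · rintro ⟨h1, h2⟩
        refine ⟨⟨v, fun i => ?_, h2⟩, ?_, rfl⟩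
        · have := h1 i.castSucc
          rwa [Fin.snoc_castSucc] at this
        · have h3 := h1 (Fin.last n)
          rw [Fin.snoc_last] at h3
          obtain ⟨w, hw⟩ := h3
          rw [LinearMap.mem_ker]
          show ρ (evl a v) = 0
          have hw' : evl a v = lin a * w := hw
          rw [hw', map_mul, hρa, zero_mul]
    rw [h1]
  -- the range
  have hrange : LinearMap.range (T A a m ρ) =
      (homogeneousSubmodule (Fin 2) K e).map (LinearMap.mulLeft K P) := by
    ext f
    rw [LinearMap.mem_range, Submodule.mem_map]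
    constructor
    · rintro ⟨v, rfl⟩
      obtain ⟨g, hg⟩ := hEXB K n A a j₀ ρ c hS hj₀ hA hρX hρa hρ0 hc1 hc2 v.1 v.2.1
      refine ⟨homogeneousComponent e g, homogeneousComponent_isHomogeneous e g, ?_⟩
      have h1 : (ρ (evl a v.1)).IsHomogeneous m := rho_hom hj₀ hρX hρa (evl_hom a v.2.2)
      show P * homogeneousComponent e g = ρ (evl a v.1)
      rw [← comp_mul P g cᶜ.card e hPh, hce, ← hg,
        homogeneousComponent_of_mem (show _ ∈ homogeneousSubmodule (Fin 2) K m from h1), if_pos rfl]
    · rintro ⟨g, hg, rfl⟩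
      obtain ⟨v, hv1, hv2, hv3⟩ := hEXL K n A a j₀ ρ c hS hj₀ hA hρX hρa hρr hρ0 hc1 hc2 m e g hg
        he hnm
      exact ⟨⟨v, hv1, hv2⟩, hv3⟩
  have hinj : Function.Injective (LinearMap.mulLeft K P) := fun f g h => mul_left_cancel₀ hP0 h
  have hrr : finrank K (LinearMap.range (T A a m ρ)) = e + 1 := by
    rw [hrange, ← (Submodule.equivMapOfInjective _ hinj _).finrank_eq, dim2]
  rw [hker, hrr] at hrn
  rw [← hcc, ← hrn]
  omega

end Pool.Agent.H53.GR
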